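import Pool.Agent.H94.FD.Stm
import Pool.Agent.H22.G4.Targets

/-!
Frostman data (MP_ee74d2_an): the induction on scales for an abstract class `K0`, three functions.
Statements.
-/

set_option autoImplicit false

namespace Pool.Agent.H82.FD

open MeasureTheory Set
open Pool.Agent.H83.G Pool.Agent.H22.G4 Pool.Agent.H94.FD
open scoped ENNReal NNReal RealInnerProductSpace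

/-- the level set estimate at scale `R` with constant `g`, for the exponent `2 + x` and the
class `K0` -/
def BdK {m : ℕ} (K0 : KP m) (x κ R g : ℝ) : Prop :=
  ∀ (A H : ℝ) (G : Z m → ℂ) (X : Finset (Z m)), 0 < A → 0 < H → K0 κ R A G → Sep X →
    (∀ z ∈ X, H ≤ ‖TF G z‖) →
    (X.card : ℝ) * H ^ (2 + x) ≤ g * A ^ x * R ^ (m * x / 2 - 1) * ∫ ζ, ‖G ζ‖ ^ 2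

/-- a class which is stable under the operations of the induction on scales -/
structure IsCl (m L : ℕ) (K0 : KP m) : Prop where
  cls : ∀ {κ R A : ℝ} {G : Z m → ℂ}, K0 κ R A G → Cls L κ R A G
  monoK : ∀ {κ κ' R A : ℝ} {G : Z m → ℂ}, κ ≤ κ' → κ ≤ 1 / 2 → 0 < R → K0 κ R A G → K0 κ' R A G
  monoA : ∀ {κ R A A' : ℝ} {G : Z m → ℂ}, 0 < R → 0 ≤ A → A ≤ A' → K0 κ R A G → K0 κ R A' G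
  rsc : ∃ C : ℝ, 1 ≤ C ∧ ∀ (κ R A : ℝ) (G : Z m → ℂ) (φ : E m → ℂ)
    (η : E m) (s : ℝ), φ ∈ Bp m L → 0 ≤ κ → κ ≤ 1 / 2 → 0 < A → 0 < s → s ≤ 1 → 1 ≤ R * s ^ 2 →
    K0 κ R A G → ∃ G' : Z m → ℂ, K0 κ (R * s ^ 2) (C * A) G' ∧
    (∀ z, TF G' (Lo η s z) = TP φ η s G z) ∧
    ∫ ζ, ‖G' ζ‖ ^ 2 = s ^ (m + 2) * ∫ ζ, ‖cp φ η s ζ * G ζ‖ ^ 2
  cpc : ∀ (β : E m → ℂ) (K : ℝ), IsPU β → 1 ≤ K → ∃ C : ℝ, 1 ≤ C ∧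
    ∀ (κ R A : ℝ) (G : Z m → ℂ) (c : E m), 0 ≤ κ → κ ≤ 1 / 2 → 1 ≤ R → 0 < A → ‖c‖ ≤ 4 * m + 4 →
    K0 κ R A G → K0 κ R (C * A) (fun ζ => cp β c K⁻¹ ζ * G ζ)
  ssc : ∀ (β : E m → ℂ) (Ψ Ξ : Z m → ℂ) (ψ χ : Z m → ℝ) (δ δ' : ℝ),
    IsPU β → IsPsi Ψ ψ → IsLow Ξ χ → 0 < δ → δ ≤ 1 / 4 → 0 < δ' → 2 * m + 6 ≤ L →
    ∃ C : ℝ, 1 ≤ C ∧ ∀ (κ R r A : ℝ) (G : Z m → ℂ) (S : Finset (Pk m)) (z₁ : Z m), 0 ≤ κ →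
    κ ≤ 3 / 8 → 1 ≤ R → C ≤ R ^ δ → Real.sqrt R ≤ r → r ≤ R / C → 0 < A → K0 κ R A G →
    ∃ G' : Z m → ℂ, K0 (κ + C * R ^ (-δ)) r (C * R ^ δ' * A * (R / r) ^ ((m : ℝ) / 2)) G' ∧
    ∀ z, TF G' z = (χ (r⁻¹ • (z - z₁)) : ℂ) * ∑ W ∈ S, Fp β ψ R δ G W z

/-- ENBK: the energy near a ball is bounded by the class -/
def T_ENBK (m : ℕ) (α : ℝ) (K0 : KP m) : Prop := ∀ (N : ℕ) (β : E m → ℂ) (δ : ℝ), IsPU β →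
  0 < δ → m + 3 ≤ N → ∃ C : ℝ, 0 < C ∧ ∀ (κ R A : ℝ) (G : Z m → ℂ) (z₀ : Z m), 0 ≤ κ →
  κ ≤ 1 / 2 → 1 ≤ R → 0 < A → K0 κ R A G →
  Er N β R δ G z₀ ≤ ENNReal.ofReal (C * R ^ (lo m * δ) * (A ^ 2 * R ^ (1 + α)))

/-- IND3: three separated directions are quantitatively independent -/
def T_IND3 : Prop := ∀ (m : ℕ) (B r : ℝ), 0 < r → ∃ c₀ : ℝ, 0 < c₀ ∧ ∀ η : Fin 3 → E m,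
  (∀ i, ‖η i‖ ≤ B) → (∀ i j, i ≠ j → r ≤ ‖η i - η j‖) → Ind c₀ η

/-- BRN8: broad or narrow, caps at distance `8/K` -/
def T_BRN8 : Prop := ∀ (m : ℕ) (β : E m → ℂ), IsPU β → ∃ c : ℝ, 0 < c ∧ c ≤ 1 ∧
  ∀ (K : ℝ) (G : Z m → ℂ) (z : Z m), 1 ≤ K → TC G →
  (∀ ζ, G ζ ≠ 0 → 1 / 4 ≤ ζ.1 ∧ ‖ζ.2.1‖ ≤ 3 / 2 * ζ.1) →
  (∃ k ∈ Ks m K⁻¹, c * ‖TF G z‖ ≤ ‖TP β (ctr K⁻¹ k) K⁻¹ G z‖) ∨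
  ∃ k : Fin 3 → (Fin m → ℤ), (∀ i, k i ∈ Ks m K⁻¹) ∧
    (∀ i j, i ≠ j → 8 / K ≤ ‖ctr K⁻¹ (k i) - ctr K⁻¹ (k j)‖) ∧
    ∀ i, c * K⁻¹ ^ m * ‖TF G z‖ ≤ ‖TP β (ctr K⁻¹ (k i)) K⁻¹ G z‖

/-- BASK: the trivial bounds -/
def T_BASK (m L : ℕ) (x : ℝ) (K0 : KP m) : Prop := ∃ C : ℝ, 0 < C ∧
  (∀ κ R : ℝ, 0 ≤ κ → κ ≤ 1 / 2 → 1 ≤ R → BdK K0 x κ R (C * R)) ∧
  ∀ (κ R A H : ℝ) (G : Z m → ℂ) (X : Finset (Z m)), 0 ≤ κ → κ ≤ 1 / 2 → 1 ≤ R → 0 < A → 0 < H →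
    H ≤ A → K0 κ R A G → Sep X → (∀ z ∈ X, H ≤ ‖TF G z‖) →
    (X.card : ℝ) * H ^ (2 + x) ≤ C * A ^ x * ∫ ζ, ‖G ζ‖ ^ 2

/-- NARK: the narrow part -/
def T_NARK (m L : ℕ) (x : ℝ) (K0 : KP m) : Prop := ∀ (β : E m → ℂ) (c : ℝ), IsPU β → 0 < c →
  ∃ C : ℝ, 0 < C ∧ ∀ (K κ R A H g : ℝ) (G : Z m → ℂ) (X : Finset (Z m)), 1 ≤ K → 0 ≤ κ →
  κ ≤ 1 / 2 → K ^ 2 ≤ R → 0 < A → 0 < H → 0 ≤ g → BdK K0 x κ (R / K ^ 2) g → K0 κ R A G →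
  Sep X → (∀ z ∈ X, ∃ k ∈ Ks m K⁻¹, c * H ≤ ‖TP β (ctr K⁻¹ k) K⁻¹ G z‖) →
  (X.card : ℝ) * H ^ (2 + x) ≤
    C * K ^ (2 - m * x) * g * A ^ x * R ^ (m * x / 2 - 1) * ∫ ζ, ‖G ζ‖ ^ 2

/-- OENK: one end -/
def T_OENK (m L : ℕ) (x : ℝ) (K0 : KP m) : Prop := ∀ (N : ℕ) (β : E m → ℂ) (Ψ Ξ : Z m → ℂ)
  (ψ χ : Z m → ℝ) (δ ε₀ : ℝ), IsPU β → IsPsi Ψ ψ → IsLow Ξ χ → 0 < δ → δ ≤ 1 / 4 →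
  0 < ε₀ → ε₀ ≤ 1 / 2 → 2 * m + 6 ≤ N → ∃ C : ℝ, 1 ≤ C ∧ ∀ (κ R A H g : ℝ) (G : Z m → ℂ)
  (S : Finset (Pk m)) (QQ : Finset (Zi m)) (l k : ℕ) (X : Finset (Z m)), 0 ≤ κ → κ ≤ 3 / 8 →
  1 ≤ R → C ≤ R ^ δ → C ≤ R ^ ε₀ → 0 < A → 0 < H → 0 ≤ g →
  BdK K0 x (κ + C * R ^ (-δ)) (R ^ (1 - ε₀)) g → K0 κ R A G → Sep X →
  (∀ W ∈ S, W.1 ∈ Ks m (sR R)) →
  (∀ z ∈ X, cb (Real.sqrt R) z ∈ QQ ∧ H ≤ ‖∑ W ∈ SB QQ R (R ^ (1 - ε₀)) δ l k S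
    (bl R (R ^ (1 - ε₀)) (cb (Real.sqrt R) z)), Fp β ψ R δ G W z‖) →
  (X.card : ℝ) * H ^ (2 + x) ≤ C * R ^ (2 * lo m * δ) * 2 ^ k * g * A ^ x *
    R ^ (m * x / 2 - 1) * ∑ W ∈ S, al N β R δ G W ^ 2 * R ^ (((m : ℝ) + 2) / 2)

/-- BROK: the broad part in a ball of radius `R` -/
def T_BROK (m L : ℕ) (x : ℝ) (K0 : KP m) : Prop := ∀ (β : E m → ℂ) (K δ ε₀ ε₁ b₀ : ℝ),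
  IsPU β → 1 ≤ K → 0 < δ → δ ≤ 1 / 100 → 0 < ε₀ → ε₀ ≤ 1 / 4 → 0 < ε₁ → 0 < b₀ →
  ∃ C : ℝ, 1 ≤ C ∧ ∀ (κ R A H g : ℝ) (G : Fin 3 → Z m → ℂ) (c : Fin 3 → E m) (z₀ : Z m)
  (X : Finset (Z m)), 0 ≤ κ → κ ≤ 3 / 8 → C ≤ R → 0 < A → 0 < H → b₀ * A ≤ H → 1 ≤ g →
  (∀ i, K0 κ R A (G i)) → (∀ i, ‖c i‖ ≤ 4 * m + 4) →
  (∀ i, ∀ ζ, G i ζ ≠ 0 → ‖ζ.1⁻¹ • ζ.2.1 - c i‖ ≤ 1 / K) →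
  (∀ i j, i ≠ j → 8 / K ≤ ‖c i - c j‖) →
  Sep X → (∀ z ∈ X, ‖z - z₀‖ ≤ R) → (∀ z ∈ X, ∀ i, H ≤ ‖TF (G i) z‖) →
  BdK K0 x (κ + C * R ^ (-δ)) (R ^ (1 - ε₀)) g →
  (X.card : ℝ) * H ^ (2 + x) ≤
    C * (R ^ (ε₁ + lb m * δ) * g + R ^ (lb m * (δ + ε₀))) * A ^ x * R ^ (m * x / 2 - 1) *
      (∑ i, Er (m + 3) β R δ (G i) z₀).toReal

/-- RECK: the recursion -/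
def T_RECK (m L : ℕ) (x : ℝ) (K0 : KP m) : Prop := ∃ C₁ : ℝ, 0 < C₁ ∧
  ∀ (K δ ε₀ ε₁ : ℝ), 1 ≤ K → 0 < δ → δ ≤ 1 / 100 → 0 < ε₀ → ε₀ ≤ 1 / 4 → 0 < ε₁ →
  ∃ C₂ : ℝ, 1 ≤ C₂ ∧ ∀ (κ R g₁ g₂ : ℝ), 0 ≤ κ → κ ≤ 3 / 8 → C₂ ≤ R → 0 ≤ g₁ → 1 ≤ g₂ →
  BdK K0 x κ (R / K ^ 2) g₁ → BdK K0 x (κ + C₂ * R ^ (-δ)) (R ^ (1 - ε₀)) g₂ →
  BdK K0 x κ R (C₁ * K ^ (2 - m * x) * g₁ + C₂ * R ^ (ε₁ + 2 * lb m * δ) * g₂ +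
    C₂ * R ^ (2 * lb m * (δ + ε₀)))

/-- MAINK: the level set estimate at all scales -/
def T_MAINK (m : ℕ) (x : ℝ) (K0 : KP m) : Prop := ∀ ε : ℝ, 0 < ε → ∃ C : ℝ, 0 < C ∧
  ∀ R : ℝ, 1 ≤ R → BdK K0 x (1 / 4) R (C * R ^ ε)

end Pool.Agent.H82.FD
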