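import Pool.Agent.H94.FD.Stm

/-!
Sparse data (MP_ee74d2_an): the final linear programme, three functions, with the tube bound
`b a² ≤ L A² R^τ` and the energy bound `E ≤ L A² R^S`; `D = 5m + 3 - 2S - 2τ`, `x = 8/D`.
-/

set_option autoImplicit false

namespace Pool.Agent.H82.FD

open Real

/-- the linear programme in logarithms -/
theorem alg_log (m S τ D x : ℝ) (hm : 1 ≤ m) (hD : D = 5 * m + 3 - 2 * S - 2 * τ)
    (hD0 : 3 * m + 2 ≤ D) (hx : x * D = 8)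
    (n h q e A l ρ : ℝ) (u v t b a : Fin 3 → ℝ) (hl : 0 ≤ l)
    (h1 : ∀ i, t i + b i + 2 * a i + m / 2 * ρ ≤ l + e)
    (h2 : e ≤ l + 2 * A + S * ρ)
    (h3 : ∀ i, q + v i ≤ l + t i + 1 / 2 * ρ)
    (h4 : ∀ i j, i ≠ j → q + v i + 2 * v j ≤ l + t i + t j)
    (h5 : n + (u 0 + u 1 + u 2) ≤ l + q + ((v 0 + b 0) + (v 1 + b 1) + (v 2 + b 2)) +
      (m - 1) / 2 * ρ)
    (h6 : ∀ i, n + 2 * h ≤ l + q + v i + b i + 2 * a i + (m + 1) / 2 * ρ)
    (h7 : ∀ i, n + 2 * (m + 2) / m * h ≤ l + 2 / m * u i + 2 * (m + 2) / m * a i + t i + b i +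
      (m + 2) / 2 * ρ)
    (h8 : ∀ i, b i + 2 * a i ≤ l + 2 * A + τ * ρ) :
    n + (2 + x) * h ≤ 4 * l + x * A + m * x / 2 * ρ + e := by
  have hDp : 0 < D := by linarith
  have hm0 : 0 < m := by linarith
  have g7 : ∀ i, m * n + 2 * (m + 2) * h ≤ m * l + 2 * u i + 2 * (m + 2) * a i + m * t i +
      m * b i + m * (m + 2) / 2 * ρ := by
    intro i
    have := mul_le_mul_of_nonneg_left (h7 i) hm0.le
    have e1 : m * (n + 2 * (m + 2) / m * h) = m * n + 2 * (m + 2) * h := by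
      field_simp
    have e2 : m * (l + 2 / m * u i + 2 * (m + 2) / m * a i + t i + b i + (m + 2) / 2 * ρ) =
        m * l + 2 * u i + 2 * (m + 2) * a i + m * t i + m * b i + m * (m + 2) / 2 * ρ := by
      field_simp
    linarith
  -- averages
  obtain ⟨U, hU⟩ : ∃ U, U = (u 0 + u 1 + u 2) / 3 := ⟨_, rfl⟩
  obtain ⟨V, hV⟩ : ∃ V, V = (v 0 + v 1 + v 2) / 3 := ⟨_, rfl⟩
  obtain ⟨T, hT⟩ : ∃ T, T = (t 0 + t 1 + t 2) / 3 := ⟨_, rfl⟩
  obtain ⟨B, hB⟩ : ∃ B, B = (b 0 + b 1 + b 2) / 3 := ⟨_, rfl⟩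
  obtain ⟨W, hW⟩ : ∃ W, W = (a 0 + a 1 + a 2) / 3 := ⟨_, rfl⟩
  have k1 : T + B + 2 * W + m / 2 * ρ ≤ l + e := by
    have := h1 0; have := h1 1; have := h1 2
    rw [hT, hB, hW]; linarith
  have k3 : q + V ≤ l + T + 1 / 2 * ρ := by
    have := h3 0; have := h3 1; have := h3 2
    rw [hT, hV]; linarith
  have k4 : q + 3 * V ≤ l + 2 * T := by
    have := h4 0 1 (by decide); have := h4 1 2 (by decide); have := h4 2 0 (by decide)
    rw [hT, hV]; linarith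
  have k5 : n + 3 * U ≤ l + q + 3 * V + 3 * B + (m - 1) / 2 * ρ := by
    rw [hU, hV, hB]; linarith
  have k6 : n + 2 * h ≤ l + q + V + B + 2 * W + (m + 1) / 2 * ρ := by
    have := h6 0; have := h6 1; have := h6 2
    rw [hV, hB, hW]; linarith
  have k7 : m * n + 2 * (m + 2) * h ≤ m * l + 2 * U + 2 * (m + 2) * W + m * T + m * B +
      m * (m + 2) / 2 * ρ := by
    have := g7 0; have := g7 1; have := g7 2
    have e1 : 2 * U + 2 * (m + 2) * W + m * T + m * B = (1 / 3) * ((2 * u 0 + 2 * (m + 2) * a 0 +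
        m * t 0 + m * b 0) + (2 * u 1 + 2 * (m + 2) * a 1 + m * t 1 + m * b 1) +
        (2 * u 2 + 2 * (m + 2) * a 2 + m * t 2 + m * b 2)) := by
      rw [hU, hW, hT, hB]; ring
    linarith
  have k8 : B + 2 * W ≤ l + 2 * A + τ * ρ := by
    have := h8 0; have := h8 1; have := h8 2
    rw [hB, hW]; linarith
  -- the combination, multiplied by `D`
  have m6 := mul_le_mul_of_nonneg_left k6 (show 0 ≤ D - 2 - 3 * m by linarith)
  have m3 := mul_le_mul_of_nonneg_left k3 (show 0 ≤ D - 2 - 3 * m by linarith)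
  have m1 := mul_le_mul_of_nonneg_left k1 (show 0 ≤ D + 2 by linarith)
  have key : D * n + (2 * D + 8) * h ≤
      (2 * D + 6 + (D - 3 * m)) * l + 8 * A + 4 * m * ρ + D * e := by
    subst hD
    linarith [m6, m3, m1, k7, k5, k4, h2, k8]
  have key2 : D * n + (2 * D + 8) * h ≤ 4 * D * l + 8 * A + 4 * m * ρ + D * e := by
    have : (2 * D + 6 + (D - 3 * m)) * l ≤ 4 * D * l :=
      mul_le_mul_of_nonneg_right (by linarith) hl
    linarith
  have e1 : D * (n + (2 + x) * h) = D * n + (2 * D + 8) * h := by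
    linear_combination h * hx
  have e2 : D * (4 * l + x * A + m * x / 2 * ρ + e) = 4 * D * l + 8 * A + 4 * m * ρ + D * e := by
    linear_combination (A + m / 2 * ρ) * hx
  have key3 : D * (n + (2 + x) * h) ≤ D * (4 * l + x * A + m * x / 2 * ρ + e) := by
    rw [e1, e2]; exact key2
  exact le_of_mul_le_mul_left key3 hDp

open Pool.Agent.H83.G Pool.Agent.H94.G4 Pool.Agent.H94.FD in
/-- the extra constraint: the bound for the energy of a tube -/
def XT (j : ℕ) (τ : ℝ) : XCon j := fun _ _ _ A L R _ b a =>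
  ∀ i, b i * a i ^ 2 ≤ L * A ^ 2 * R ^ τ

open Pool.Agent.H83.G Pool.Agent.H94.G4 Pool.Agent.H94.FD in
/-- the final linear programme -/
theorem alg_gen (m : ℕ) (S τ x : ℝ) (hm : 1 ≤ m) (hx : x * (5 * m + 3 - 2 * S - 2 * τ) = 8)
    (hD : 2 * S + 2 * τ ≤ 2 * m + 1) : T_ALGF 3 m S x (XT 3 τ) := by
  intro N H q E A L R M1 M t b a hN hH hq hE hA hL hR hM1 hM ht hb ha h1 h2 h3 h4 h5 h6 h7 _ _ h8
  have hm1 : (1 : ℝ) ≤ m := by exact_mod_cast hm
  have hL0 : 0 < L := by linarith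
  have hR0 : 0 < R := by linarith
  have hb0 : ∀ i, 0 < b i := fun i => by linarith [hb i]
  obtain ⟨n, rfl⟩ : ∃ n, exp n = N := ⟨log N, exp_log hN⟩
  obtain ⟨h, rfl⟩ : ∃ h, exp h = H := ⟨log H, exp_log hH⟩
  obtain ⟨q', rfl⟩ : ∃ q', exp q' = q := ⟨log q, exp_log hq⟩
  obtain ⟨e', rfl⟩ : ∃ e', exp e' = E := ⟨log E, exp_log hE⟩
  obtain ⟨A', rfl⟩ : ∃ A', exp A' = A := ⟨log A, exp_log hA⟩
  obtain ⟨l, rfl⟩ : ∃ l, exp l = L := ⟨log L, exp_log hL0⟩
  obtain ⟨ρ, rfl⟩ : ∃ ρ, exp ρ = R := ⟨log R, exp_log hR0⟩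
  obtain ⟨u, rfl⟩ : ∃ u : Fin 3 → ℝ, (fun i => exp (u i)) = M1 :=
    ⟨fun i => log (M1 i), funext fun i => exp_log (hM1 i)⟩
  obtain ⟨v, rfl⟩ : ∃ u : Fin 3 → ℝ, (fun i => exp (u i)) = M :=
    ⟨fun i => log (M i), funext fun i => exp_log (hM i)⟩
  obtain ⟨t', rfl⟩ : ∃ u : Fin 3 → ℝ, (fun i => exp (u i)) = t :=
    ⟨fun i => log (t i), funext fun i => exp_log (ht i)⟩
  obtain ⟨b', rfl⟩ : ∃ u : Fin 3 → ℝ, (fun i => exp (u i)) = b :=
    ⟨fun i => log (b i), funext fun i => exp_log (hb0 i)⟩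
  obtain ⟨a', rfl⟩ : ∃ u : Fin 3 → ℝ, (fun i => exp (u i)) = a :=
    ⟨fun i => log (a i), funext fun i => exp_log (ha i)⟩
  have hl : 0 ≤ l := by
    rw [← exp_zero] at hL
    exact exp_le_exp.1 hL
  have h8' : ∀ i, exp (b' i) * exp (a' i) ^ 2 ≤ exp l * exp A' ^ 2 * exp ρ ^ τ := h8
  simp only [Fin.prod_univ_three, ← exp_add, ← exp_mul, ← exp_nat_mul, exp_le_exp] at h1 h2 h3 h4 h5 h6 h7 h8' ⊢
  push_cast at *
  have key := alg_log m S τ _ x hm1 rfl (by linarith) hx n h q' e' A' l ρ u v t' b' a' hl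
    (fun i => by linarith [h1 i]) (by linarith) (fun i => by linarith [h3 i])
    (fun i j hij => by linarith [h4 i j hij]) (by linarith) (fun i => by linarith [h6 i])
    (fun i => by
      have := h7 i
      have e1 : h * (2 * ((m : ℝ) + 2) / m) = 2 * (m + 2) / m * h := by ring
      have e2 : a' i * (2 * ((m : ℝ) + 2) / m) = 2 * (m + 2) / m * a' i := by ring
      have e3 : u i * (2 / (m : ℝ)) = 2 / m * u i := by ring
      rw [e1, e2, e3] at this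
      linarith)
    (fun i => by linarith [h8' i])
  have e3 : (((m : ℕ) : ℝ) * x / 2) * 1 = m * x / 2 := mul_one _
  linarith [key, mul_comm ρ ((m : ℝ) * x / 2), mul_comm A' x, mul_comm h (2 + x)]

open Pool.Agent.H83.G Pool.Agent.H94.G4 Pool.Agent.H94.FD in
/-- the final linear programme, with the energy exponent `α` and the tube exponent `θ` -/
theorem alg_fd (m : ℕ) (α θ x : ℝ) (hm : 1 ≤ m) (hx : x * (6 * m + 3 - 2 * α - 2 * θ) = 8)
    (hD : 2 * α + 2 * θ ≤ 3 * m + 1) : T_ALGF 3 m α x (XA 3 m θ) := by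
  intro N H q E A L R M1 M t b a hN hH hq hE hA hL hR hM1 hM ht hb ha h1 h2 h3 h4 h5 h6 h7 h8 h9 h
  refine alg_gen m α (θ - m / 2) x hm (by rw [← hx]; ring) (by linarith) N H q E A L R M1 M t b a
    hN hH hq hE hA hL hR hM1 hM ht hb ha h1 h2 h3 h4 h5 h6 h7 h8 h9 ?_
  intro i
  have hR0 : 0 < R := by linarith
  have h10 := h i
  have h11 : 0 < R ^ ((m : ℝ) / 2) := Real.rpow_pos_of_pos hR0 _
  have h12 : R ^ θ = R ^ (θ - (m : ℝ) / 2) * R ^ ((m : ℝ) / 2) := by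
    rw [← Real.rpow_add hR0]
    congr 1
    ring
  rw [h12, ← mul_assoc] at h10
  exact le_of_mul_le_mul_right h10 h11

end Pool.Agent.H82.FD
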