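import Pool.Agent.H82.FD.Abs

/-!
FD (MP_ee74d2_an): the trivial bounds for the abstract class.
-/

set_option autoImplicit false

namespace Pool.Agent.H82.FD

open MeasureTheory Set
open Pool.Agent.H83.G Pool.Agent.H22.G4 Pool.Agent.H94.FD

theorem pf_BASK (hB : T_BASx) {m L : ℕ} {x : ℝ} (hm : 1 ≤ m) (hx : 0 < x) (hx4 : x ≤ 4)
    {K0 : KP m} (hcl : IsCl m L K0) : T_BASK m L x K0 := by
  obtain ⟨C, hC, h1, h2⟩ := hB m L x hm hx hx4
  exact ⟨C, hC, fun κ R a b c A H G X hA hH hG hX hz =>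
    h1 κ R a b c A H G X hA hH (hcl.cls hG) hX hz,
    fun κ R A H G X a b c hA hH hHA hG => h2 κ R A H G X a b c hA hH hHA (hcl.cls hG)⟩

end Pool.Agent.H82.FD
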