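import Pool.Agent.H82.FD.Abs

/-!
FD (MP_ee74d2_an), IND3: three separated directions are quantitatively independent.
-/

set_option autoImplicit false

namespace Pool.Agent.H82.FD.IND3

open MeasureTheory Set
open Pool.Agent.H83.G Pool.Agent.H22.G4 Pool.Agent.H94.FD
open scoped ENNReal NNReal RealInnerProductSpace

private theorem aux {A B C a0 a1 a2 Q r M : ℝ} (hr : 0 < r) (hA : r ≤ A) (hB : r ≤ B)
    (hC : 0 ≤ C) (hCM : C ≤ M) (hQ : 0 ≤ Q) (h0 : |a1 * A + a2 * B| ≤ Q)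
    (h1 : |a0 * A + a2 * C| ≤ Q) (h2 : |a0 * B + a1 * C| ≤ Q) :
    |a0| ≤ (r⁻¹ + M * (r⁻¹) ^ 2) * Q := by
  have hA0 : 0 < A := by linarith
  have hB0 : 0 < B := by linarith
  have e : 2 * (A * B) * a0 =
      B * (a0 * A + a2 * C) + A * (a0 * B + a1 * C) - C * (a1 * A + a2 * B) := by ring
  have h3 : |2 * (A * B) * a0| ≤ B * Q + A * Q + C * Q := by
    rw [e]
    refine (abs_sub _ _).trans (add_le_add ((abs_add_le _ _).trans (add_le_add ?_ ?_)) ?_)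
    · rw [abs_mul, abs_of_pos hB0]; exact mul_le_mul_of_nonneg_left h1 hB0.le
    · rw [abs_mul, abs_of_pos hA0]; exact mul_le_mul_of_nonneg_left h2 hA0.le
    · rw [abs_mul, abs_of_nonneg hC]; exact mul_le_mul_of_nonneg_left h0 hC
  have hAB : 0 < A * B := mul_pos hA0 hB0
  rw [abs_mul, abs_of_pos (by positivity : 0 < 2 * (A * B))] at h3
  have h4 : A⁻¹ ≤ r⁻¹ := inv_anti₀ hr hA
  have h5 : B⁻¹ ≤ r⁻¹ := inv_anti₀ hr hB
  have hAi : 0 < A⁻¹ := inv_pos.2 hA0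
  have hBi : 0 < B⁻¹ := inv_pos.2 hB0
  have h6 : |a0| ≤ (A⁻¹ + B⁻¹ + C * (A⁻¹ * B⁻¹)) / 2 * Q := by
    have h7 : (A⁻¹ + B⁻¹ + C * (A⁻¹ * B⁻¹)) / 2 * Q =
        (B * Q + A * Q + C * Q) / (2 * (A * B)) := by
      field_simp
    rw [h7, le_div_iff₀ (by positivity)]
    linarith
  refine h6.trans (mul_le_mul_of_nonneg_right ?_ hQ)
  have hM : 0 ≤ M := hC.trans hCM
  have h8 : C * (A⁻¹ * B⁻¹) ≤ M * (r⁻¹ * r⁻¹) :=
    mul_le_mul hCM (mul_le_mul h4 h5 hBi.le (by positivity)) (by positivity) hM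
  have h9 : 0 ≤ M * (r⁻¹ * r⁻¹) := by positivity
  have h10 : (r⁻¹) ^ 2 = r⁻¹ * r⁻¹ := by ring
  rw [h10]
  linarith

/-- the pairing with the null vector of the direction `η` -/
private noncomputable def qf {m : ℕ} (z : Z m) (η : E m) : ℝ :=
  ⟪z.2.1, η⟫ - (z.1 * ‖η‖ ^ 2 + z.2.2) / 2

private theorem qf_nv {m : ℕ} (x y : E m) : qf (nv x) y = -(‖x - y‖ ^ 2 / 2) := by
  have h : ‖x - y‖ ^ 2 = ‖x‖ ^ 2 - 2 * ⟪x, y⟫ + ‖y‖ ^ 2 := norm_sub_sq_real x y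
  unfold qf nv
  simp only
  rw [h]
  ring

private theorem qf_add {m : ℕ} (z z' : Z m) (η : E m) : qf (z + z') η = qf z η + qf z' η := by
  unfold qf
  simp only [Prod.fst_add, Prod.snd_add, inner_add_left]
  ring

private theorem qf_smul {m : ℕ} (c : ℝ) (z : Z m) (η : E m) : qf (c • z) η = c * qf z η := by
  unfold qf
  simp only [Prod.smul_fst, Prod.smul_snd, real_inner_smul_left, smul_eq_mul]
  ring

private theorem qf_le {m : ℕ} {B : ℝ} (z : Z m) (η : E m) (hη : ‖η‖ ≤ B) :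
    |qf z η| ≤ (B + 1) ^ 2 * ‖z‖ := by
  have hB : 0 ≤ B := (norm_nonneg _).trans hη
  have h1 : |z.1| ≤ ‖z‖ := norm_fst_le z
  have h2 : ‖z.2.1‖ ≤ ‖z‖ := (norm_fst_le z.2).trans (norm_snd_le z)
  have h3 : |z.2.2| ≤ ‖z‖ := (norm_snd_le z.2).trans (norm_snd_le z)
  have hz : 0 ≤ ‖z‖ := norm_nonneg _
  have h4 : |⟪z.2.1, η⟫| ≤ ‖z‖ * B :=
    (abs_real_inner_le_norm _ _).trans (mul_le_mul h2 hη (norm_nonneg _) hz)
  have h5 : |z.1 * ‖η‖ ^ 2| ≤ ‖z‖ * B ^ 2 := by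
    rw [abs_mul, abs_of_nonneg (by positivity : 0 ≤ ‖η‖ ^ 2)]
    exact mul_le_mul h1 (pow_le_pow_left₀ (norm_nonneg _) hη 2) (by positivity) hz
  unfold qf
  have h6 : |(z.1 * ‖η‖ ^ 2 + z.2.2) / 2| ≤ (‖z‖ * B ^ 2 + ‖z‖) / 2 := by
    rw [abs_div, abs_of_pos (by norm_num : (0 : ℝ) < 2)]
    have := (abs_add_le (z.1 * ‖η‖ ^ 2) z.2.2).trans (add_le_add h5 h3)
    linarith
  refine (abs_sub _ _).trans ((add_le_add h4 h6).trans ?_)
  nlinarith [mul_nonneg hz hB, mul_nonneg hz (sq_nonneg B)]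

theorem pf_IND3 : T_IND3 := by
  intro m B r hr
  set P : ℝ := 2 * (B + 1) ^ 2 with hP
  set κ : ℝ := ((r ^ 2)⁻¹ + (4 * B ^ 2) * ((r ^ 2)⁻¹) ^ 2) * P with hκ
  have hκ0 : 0 ≤ κ := by positivity
  refine ⟨(3 * κ + 1)⁻¹, by positivity, ?_⟩
  intro η hη hsep a
  set z : Z m := ∑ i, a i • nv (η i) with hz
  have hB : 0 ≤ B := (norm_nonneg _).trans (hη 0)
  have hz0 : 0 ≤ ‖z‖ := norm_nonneg _
  have hr2 : 0 < r ^ 2 := by positivity
  have hd : ∀ i j, i ≠ j → r ^ 2 ≤ ‖η i - η j‖ ^ 2 ∧ ‖η i - η j‖ ^ 2 ≤ 4 * B ^ 2 := by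
    intro i j hij
    refine ⟨pow_le_pow_left₀ hr.le (hsep i j hij) 2, ?_⟩
    have h1 : ‖η i - η j‖ ≤ 2 * B := by
      have := norm_sub_le (η i) (η j)
      linarith [hη i, hη j]
    calc ‖η i - η j‖ ^ 2 ≤ (2 * B) ^ 2 := pow_le_pow_left₀ (norm_nonneg _) h1 2
      _ = 4 * B ^ 2 := by ring
  have hzj : ∀ j, qf z (η j) = -((a 0 * ‖η 0 - η j‖ ^ 2 + a 1 * ‖η 1 - η j‖ ^ 2 +
      a 2 * ‖η 2 - η j‖ ^ 2) / 2) := by
    intro j
    rw [hz, Fin.sum_univ_three, qf_add, qf_add, qf_smul, qf_smul, qf_smul, qf_nv, qf_nv, qf_nv]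
    ring
  set d01 : ℝ := ‖η 0 - η 1‖ ^ 2 with hd01
  set d02 : ℝ := ‖η 0 - η 2‖ ^ 2 with hd02
  set d12 : ℝ := ‖η 1 - η 2‖ ^ 2 with hd12
  have s10 : ‖η 1 - η 0‖ ^ 2 = d01 := by rw [norm_sub_rev]
  have s20 : ‖η 2 - η 0‖ ^ 2 = d02 := by rw [norm_sub_rev]
  have s21 : ‖η 2 - η 1‖ ^ 2 = d12 := by rw [norm_sub_rev]
  have s0 : ∀ j, ‖η j - η j‖ ^ 2 = 0 := fun j => by simp
  have hQ : ∀ j, |2 * qf z (η j)| ≤ P * ‖z‖ := by
    intro j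
    rw [abs_mul, abs_of_pos (by norm_num : (0 : ℝ) < 2), hP]
    have := qf_le z (η j) (hη j)
    linarith
  have q0 : |a 1 * d01 + a 2 * d02| ≤ P * ‖z‖ := by
    have h1 := hQ 0
    rw [hzj 0, s10, s20, s0] at h1
    rw [← abs_neg]
    refine le_of_eq_of_le ?_ h1
    congr 1
    ring
  have q1 : |a 0 * d01 + a 2 * d12| ≤ P * ‖z‖ := by
    have h1 := hQ 1
    rw [hzj 1, s21, s0] at h1
    rw [← abs_neg]
    refine le_of_eq_of_le ?_ h1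
    congr 1
    ring
  have q2 : |a 0 * d02 + a 1 * d12| ≤ P * ‖z‖ := by
    have h1 := hQ 2
    rw [hzj 2, s0] at h1
    rw [← abs_neg]
    refine le_of_eq_of_le ?_ h1
    congr 1
    ring
  have hPz : 0 ≤ P * ‖z‖ := by positivity
  have b0 : |a 0| ≤ κ * ‖z‖ := by
    have h1 := aux hr2 (hd 0 1 (by decide)).1 (hd 0 2 (by decide)).1 (by positivity)
      (hd 1 2 (by decide)).2 hPz q0 q1 q2
    rw [hκ, mul_assoc]
    exact h1
  have b1 : |a 1| ≤ κ * ‖z‖ := by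
    have h1 := aux (a0 := a 1) (a1 := a 0) (a2 := a 2) hr2 (hd 0 1 (by decide)).1
      (hd 1 2 (by decide)).1 (by positivity)
      (hd 0 2 (by decide)).2 hPz q1 q0 (by rw [add_comm]; exact q2)
    rw [hκ, mul_assoc]
    exact h1
  have b2 : |a 2| ≤ κ * ‖z‖ := by
    have h1 := aux (a0 := a 2) (a1 := a 0) (a2 := a 1) hr2 (hd 0 2 (by decide)).1
      (hd 1 2 (by decide)).1 (by positivity)
      (hd 0 1 (by decide)).2 hPz q2 (by rw [add_comm]; exact q0) (by rw [add_comm]; exact q1)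
    rw [hκ, mul_assoc]
    exact h1
  rw [Fin.sum_univ_three, inv_mul_le_iff₀ (by positivity)]
  linarith

end Pool.Agent.H82.FD.IND3
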