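import Pool.Agent.H82.G4.Chain4
import Pool.Agent.H22.G4.BAS
import Pool.Agent.H94.FD.TenF
import Pool.Agent.H94.FD.BroK
import Pool.Agent.H82.FD.Alg
import Pool.Agent.H82.FD.BASK
import Pool.Agent.H82.FD.NARK
import Pool.Agent.H82.FD.OENK
import Pool.Agent.H82.FD.RECK
import Pool.Agent.H82.FD.MAINK
import Pool.Agent.H82.FD.BRN8
import Pool.Agent.H82.FD.IND3

/-!
FD (MP_ee74d2_an): the level set estimate at all scales for a class `K0` which is stable under the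
operations of the induction, with energy exponent `α` and tube exponent `θ`.
-/

set_option autoImplicit false

namespace Pool.Agent.H82.FD.Asm

open Pool.Agent.H83.G Pool.Agent.H83.G.Chain
open Pool.Agent.H82.G4 Pool.Agent.H82.G4.Chain
open Pool.Agent.H94.FD Pool.Agent.H82.FD

theorem a_BRN8 : T_BRN8 := BRN8.pf_BRN8 m_PUS m_CPS m_SCH

theorem a_IND3 : T_IND3 := IND3.pf_IND3

theorem a_BASx : Pool.Agent.H22.G4.T_BASx :=
  Pool.Agent.H22.G4.BAS.pf_BASx m_SPK m_SPW m_PUX m_PLN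

/-- the level set estimate at all scales -/
theorem main_of {m L : ℕ} {α θ x : ℝ} {K0 : KP m} (hm : 1 ≤ m) (hL : 2 * m + 6 ≤ L)
    (hx : x * (6 * m + 3 - 2 * α - 2 * θ) = 8) (hD : 2 * α + 2 * θ ≤ 3 * m + 1) (hx0 : 0 < x)
    (hx4 : x ≤ 4) (hmx : 2 < m * x) (hcl : IsCl m L K0) (hENB : T_ENBK m α K0)
    (hTUB : T_TUB m θ K0) : T_MAINK m x K0 := by
  have hBAS := pf_BASK a_BASx hm hx0 hx4 hcl
  have hNAR := NARK.pf_NARK m_PUB m_PUS m_LOA m_LOB m_LOI hcl (x := x)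
  have hOEN := OENK.pf_OENK k_GBE m_AMU m_PLN hm hx4 hL hcl
  have hTEN : TENf 3 m K0 α x :=
    pf_TENF Pool.Agent.H22.G.pf_PG4 Pool.Agent.H22.G.pf_HG2 Pool.Agent.H22.G.pf_MU
      Pool.Agent.H22.G.pf_HB m_CBN k_TE1 m_TE2 k_TEJ m_TLS m_AMU 3 m L K0 α x (XA 3 m θ) hm
      (by omega) (fun _ _ _ _ h => hcl.cls h) (xqf_of_tub 3 m θ K0 hTUB)
      (alg_fd m α θ x hm hx hD)
  have hBRO := pf_BROK hcl hx0 hx4 hL hTEN hENB hOEN a_IND3 m_DCP m_TLS m_AMU m_AEN m_PG1 m_PG2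
    m_PG3 m_PSX m_LWX m_CBN m_WT3
  have hREC := RECK.pf_RECK a_BRN8 m_ENS m_PUX m_WT3 hm hx0 hmx hcl hBAS hNAR hBRO
  exact MAINK.pf_MAINK hmx hREC hBAS

end Pool.Agent.H82.FD.Asm
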