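import Pool.Agent.H86.FD.Tar
import Pool.Agent.H81.GT.LO

/-!
MP_ee74d2_an, theorem FD, data layer, module QUA: Plancherel and the quadratic form of a
nonnegative symbol.
-/

set_option autoImplicit false

namespace Pool.Agent.H82.FD

open MeasureTheory Set FourierTransform
open scoped ENNReal NNReal RealInnerProductSpace
open Pool.Agent.H83.LS
open Pool.Agent.H81.GT
open Pool.Agent.H19.LS
open Pool.Agent.H86.FD

theorem pf_QUA : T_QUA := by
  intro n κ A b g hb hg
  have hgi : Integrable g := BCd_int A g hg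
  have hfc : Continuous (𝓕 g) := fourier_cont g hgi
  have hbc : Continuous b := hb.1.continuous
  refine ⟨fun t => ?_, fun r hr => ?_⟩
  · set h : EE (n + 1) → ℂ := fun ξ => (e (t * ‖ξ‖) * b ξ) * 𝓕 g ξ with hh
    have hc : Continuous h := (sym_cont hb t).mul hfc
    have hs : HasCompactSupport h :=
      HasCompactSupport.mul_right (HasCompactSupport.mul_left hb.cs)
    have h1 : Integrable h := hc.integrable_of_hasCompactSupport hs
    have h2 : MemLp h 2 := hc.memLp_of_hasCompactSupport hs
    calc ∫⁻ x, ‖Ua b t g x‖ₑ ^ 2 = ∫⁻ x, ‖𝓕 h (-x)‖ₑ ^ 2 := by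
          refine lintegral_congr fun x => ?_
          unfold Ua
          rw [MM_fourier]
      _ = ∫⁻ x, ‖𝓕 h x‖ₑ ^ 2 :=
          lintegral_neg_eq_self (μ := (volume : Measure (EE (n + 1)))) fun x => ‖𝓕 h x‖ₑ ^ 2
      _ = ∫⁻ ξ, ‖h ξ‖ₑ ^ 2 := plancherelE _ h1 h2
      _ = _ := by
          refine lintegral_congr fun ξ => ?_
          rw [hh]
          simp only
          rw [enorm_mul, enorm_mul, enorm_e, one_mul, mul_pow]
  · have hF : Continuous fun ξ => b ξ * 𝓕 g ξ := hbc.mul hfc
    have hFs : HasCompactSupport fun ξ => b ξ * 𝓕 g ξ := HasCompactSupport.mul_right hb.cs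
    have hFi : Integrable fun ξ => b ξ * 𝓕 g ξ := hF.integrable_of_hasCompactSupport hFs
    have hconj : ∀ ξ, (starRingEnd ℂ) (𝓕 g ξ) =
        ∫ y : EE (n + 1), e (inner ℝ y ξ) * (starRingEnd ℂ) (g y) := by
      intro ξ
      rw [fourier_e, ← integral_conj]
      refine integral_congr_ae (Filter.Eventually.of_forall fun y => ?_)
      simp only
      rw [map_mul, conj_e, neg_neg]
    have hMM : ∀ y, Ua b 0 g y = ∫ ξ : EE (n + 1), e (inner ℝ y ξ) * (b ξ * 𝓕 g ξ) := by
      intro y
      unfold Ua MM
      refine integral_congr_ae (Filter.Eventually.of_forall fun ξ => ?_)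
      simp only
      rw [zero_mul, e_zero, one_mul]
    have hgc : Integrable fun y => (starRingEnd ℂ) (g y) := by
      refine hgi.norm.mono' ?_ ?_
      · exact Complex.continuous_conj.comp_aestronglyMeasurable hgi.aestronglyMeasurable
      · exact Filter.Eventually.of_forall fun y => by rw [RCLike.norm_conj]
    have key : ∫ ξ, (b ξ * 𝓕 g ξ) * (starRingEnd ℂ) (𝓕 g ξ) =
        ∫ y, (starRingEnd ℂ) (g y) * Ua b 0 g y := by
      have hI : Integrable (Function.uncurry fun ξ y : EE (n + 1) =>
          e (inner ℝ y ξ) * ((b ξ * 𝓕 g ξ) * (starRingEnd ℂ) (g y))) (volume.prod volume) := by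
        apply (hFi.mul_prod hgc).bdd_mul (c := 1)
        · exact (continuous_e.comp (by fun_prop)).aestronglyMeasurable
        · exact Filter.Eventually.of_forall (fun ζ => (norm_e _).le)
      calc ∫ ξ, (b ξ * 𝓕 g ξ) * (starRingEnd ℂ) (𝓕 g ξ)
          = ∫ ξ, ∫ y, e (inner ℝ y ξ) * ((b ξ * 𝓕 g ξ) * (starRingEnd ℂ) (g y)) := by
            refine integral_congr_ae (Filter.Eventually.of_forall fun ξ => ?_)
            simp only
            rw [hconj ξ, ← integral_const_mul]
            refine integral_congr_ae (Filter.Eventually.of_forall fun y => ?_)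
            simp only
            ring
        _ = ∫ y, ∫ ξ, e (inner ℝ y ξ) * ((b ξ * 𝓕 g ξ) * (starRingEnd ℂ) (g y)) :=
            integral_integral_swap hI
        _ = _ := by
            refine integral_congr_ae (Filter.Eventually.of_forall fun y => ?_)
            simp only
            rw [hMM y, ← integral_const_mul]
            refine integral_congr_ae (Filter.Eventually.of_forall fun ξ => ?_)
            simp only
            ring
    have hrc : Continuous r := by
      have : r = fun ξ => (b ξ).re := by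
        funext ξ
        rw [(hr ξ).2, Complex.ofReal_re]
      rw [this]
      exact Complex.continuous_re.comp hbc
    have hrs : HasCompactSupport r := by
      have : r = fun ξ => (b ξ).re := by
        funext ξ
        rw [(hr ξ).2, Complex.ofReal_re]
      rw [this]
      exact hb.cs.comp_left (g := Complex.re) rfl
    have hri : Integrable fun ξ => r ξ * ‖𝓕 g ξ‖ ^ 2 :=
      (hrc.mul (hfc.norm.pow 2)).integrable_of_hasCompactSupport
        (HasCompactSupport.mul_right hrs)
    have e1 : ∫⁻ ξ, ENNReal.ofReal (r ξ) * ‖𝓕 g ξ‖ₑ ^ 2 =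
        ENNReal.ofReal (∫ ξ, r ξ * ‖𝓕 g ξ‖ ^ 2) := by
      rw [ofReal_integral_eq_lintegral_ofReal hri
        (Filter.Eventually.of_forall fun ξ => mul_nonneg (hr ξ).1 (by positivity))]
      refine lintegral_congr fun ξ => ?_
      rw [ENNReal.ofReal_mul (hr ξ).1, ENNReal.ofReal_pow (norm_nonneg _), ofReal_norm]
    have e2 : ((∫ ξ, r ξ * ‖𝓕 g ξ‖ ^ 2 : ℝ) : ℂ) =
        ∫ ξ, (b ξ * 𝓕 g ξ) * (starRingEnd ℂ) (𝓕 g ξ) := by
      rw [← integral_complex_ofReal]
      refine integral_congr_ae (Filter.Eventually.of_forall fun ξ => ?_)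
      simp only
      rw [(hr ξ).2, mul_assoc, Complex.mul_conj, Complex.normSq_eq_norm_sq]
      push_cast
      ring
    have e3 : ENNReal.ofReal (∫ ξ, r ξ * ‖𝓕 g ξ‖ ^ 2) ≤
        ‖∫ y, (starRingEnd ℂ) (g y) * Ua b 0 g y‖ₑ := by
      rw [← key, ← e2, ← ofReal_norm, Complex.norm_real]
      exact ENNReal.ofReal_le_ofReal (le_abs_self _)
    rw [e1]
    refine e3.trans ((enorm_integral_le_lintegral_enorm _).trans (le_of_eq ?_))
    refine lintegral_congr fun y => ?_
    rw [enorm_mul]
    congr 1
    rw [← ofReal_norm, ← ofReal_norm, RCLike.norm_conj]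

end Pool.Agent.H82.FD
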