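import Pool.Agent.H88.FD.TargetsC
import Pool.Agent.H81.GT.SC

/-!
MP_ee74d2_an, theorem FD, final layer, module RSF: from one sector to all directions, scaling
(after H81/GT/SC, `res_of_sec`).
-/

set_option autoImplicit false

namespace Pool.Agent.H82.FD

open MeasureTheory Set FourierTransform
open scoped ENNReal NNReal SchwartzMap
open Pool.Agent.H83.LS Pool.Agent.H19.LS
open Pool.Agent.H81.GT
open Pool.Agent.H88.FD

/-- balls under scaling -/
theorem MorR_scale {n : ℕ} {α lam A : ℝ} {f : EE (n + 1) → ℂ} (hl : 1 ≤ lam) (_hA : 0 ≤ A)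
    (h : Mor α lam A f) : MorR α lam A (fun y => f (lam⁻¹ • y)) := by
  intro x ρ h1 h2
  have hl0 : 0 < lam := by linarith
  have hρ : 0 < ρ := by linarith
  have hli : 0 < lam⁻¹ := inv_pos.2 hl0
  have e1 : ∫⁻ y in Metric.closedBall x ρ, ‖f (lam⁻¹ • y)‖ₑ =
      ENNReal.ofReal (lam ^ (n + 1)) *
        ∫⁻ y in Metric.closedBall (lam⁻¹ • x) (lam⁻¹ * ρ), ‖f y‖ₑ := by
    rw [← lintegral_indicator Metric.isClosed_closedBall.measurableSet,
      ← lintegral_indicator Metric.isClosed_closedBall.measurableSet]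
    have h3 : ∀ y : EE (n + 1), (Metric.closedBall x ρ).indicator (fun y => ‖f (lam⁻¹ • y)‖ₑ) y =
        (Metric.closedBall (lam⁻¹ • x) (lam⁻¹ * ρ)).indicator (fun y => ‖f y‖ₑ) (lam⁻¹ • y) := by
      intro y
      have hiff : y ∈ Metric.closedBall x ρ ↔
          lam⁻¹ • y ∈ Metric.closedBall (lam⁻¹ • x) (lam⁻¹ * ρ) := by
        rw [Metric.mem_closedBall, Metric.mem_closedBall, dist_smul₀, Real.norm_of_nonneg hli.le,
          mul_le_mul_iff_right₀ hli]
      by_cases hy : y ∈ Metric.closedBall x ρ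
      · rw [indicator_of_mem hy, indicator_of_mem (hiff.1 hy)]
      · rw [indicator_of_notMem hy, indicator_of_notMem (fun h' => hy (hiff.2 h'))]
    simp_rw [h3]
    rw [lint_smul hli (fun y => (Metric.closedBall (lam⁻¹ • x) (lam⁻¹ * ρ)).indicator
      (fun y => ‖f y‖ₑ) y), inv_pow, inv_inv]
  rw [e1]
  have h3 := h (lam⁻¹ • x) (lam⁻¹ * ρ) (by nlinarith) (by
    rw [inv_mul_le_iff₀ hl0, mul_one]; exact h2)
  calc ENNReal.ofReal (lam ^ (n + 1)) *
        ∫⁻ y in Metric.closedBall (lam⁻¹ • x) (lam⁻¹ * ρ), ‖f y‖ₑ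
      ≤ ENNReal.ofReal (lam ^ (n + 1)) *
        ENNReal.ofReal (A * lam ^ (α - ((n : ℝ) + 1)) * (lam⁻¹ * ρ) ^ α) := by gcongr
    _ = ENNReal.ofReal (A * ρ ^ α) := by
        rw [← ENNReal.ofReal_mul (by positivity)]
        congr 1
        rw [Real.mul_rpow hli.le hρ.le, ← Real.rpow_neg_one lam, ← Real.rpow_mul hl0.le,
          ← Real.rpow_natCast lam (n + 1)]
        have h4 : lam ^ (((n + 1 : ℕ) : ℝ)) * (lam ^ (α - ((n : ℝ) + 1)) * lam ^ (-1 * α)) = 1 := by
          rw [← Real.rpow_add hl0, ← Real.rpow_add hl0]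
          have : ((n + 1 : ℕ) : ℝ) + (α - ((n : ℝ) + 1) + -1 * α) = 0 := by
            push_cast
            ring
          rw [this, Real.rpow_zero]
        calc lam ^ (((n + 1 : ℕ) : ℝ)) *
              (A * lam ^ (α - ((n : ℝ) + 1)) * (lam ^ (-1 * α) * ρ ^ α))
            = (lam ^ (((n + 1 : ℕ) : ℝ)) * (lam ^ (α - ((n : ℝ) + 1)) * lam ^ (-1 * α))) *
              (A * ρ ^ α) := by ring
          _ = A * ρ ^ α := by rw [h4, one_mul]

/-- balls under rotation -/
theorem MorR_rot {n : ℕ} {α R A : ℝ} {f : EE (n + 1) → ℂ} (h : MorR α R A f)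
    (O : EE (n + 1) ≃ₗᵢ[ℝ] EE (n + 1)) : MorR α R A (fun y => f (O y)) := by
  intro x ρ h1 h2
  have e1 : ∫⁻ y in Metric.closedBall x ρ, ‖f (O y)‖ₑ =
      ∫⁻ y in Metric.closedBall (O x) ρ, ‖f y‖ₑ := by
    rw [← lintegral_indicator Metric.isClosed_closedBall.measurableSet,
      ← lintegral_indicator Metric.isClosed_closedBall.measurableSet]
    have h3 : ∀ y : EE (n + 1), (Metric.closedBall x ρ).indicator (fun y => ‖f (O y)‖ₑ) y =
        (Metric.closedBall (O x) ρ).indicator (fun y => ‖f y‖ₑ) (O y) := by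
      intro y
      have hiff : y ∈ Metric.closedBall x ρ ↔ O y ∈ Metric.closedBall (O x) ρ := by
        rw [Metric.mem_closedBall, Metric.mem_closedBall, O.dist_map]
      by_cases hy : y ∈ Metric.closedBall x ρ
      · rw [indicator_of_mem hy, indicator_of_mem (hiff.1 hy)]
      · rw [indicator_of_notMem hy, indicator_of_notMem (fun h' => hy (hiff.2 h'))]
    simp_rw [h3]
    exact lint_rot O (fun y => (Metric.closedBall (O x) ρ).indicator (fun y => ‖f y‖ₑ) y)
  rw [e1]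
  exact h (O x) ρ h1 h2

/-- module RSF -/
theorem pf_RSF : T_RSF := by
  intro n α p₀ hp₀ hSEC q η hq hη
  obtain ⟨κ, hκe⟩ : ∃ κ : ℝ, κ = 1 / 8 := ⟨_, rfl⟩
  have hκ : 0 < κ := by rw [hκe]; norm_num
  rw [← hκe] at hSEC
  have hq0 : 0 ≤ q := by linarith
  have hq1 : 1 ≤ q := by linarith
  obtain ⟨J, O, a, ha, hsum⟩ := partition n κ hκ
  choose C hC using fun j => hSEC q hq η (a j) hη (ha j)
  refine ⟨(J : ℝ≥0) ^ (q - 1) * ∑ j, C j, fun lam A f hl hf hM => ?_⟩
  have hl0 : 0 < lam := by linarith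
  have hA0 : 0 ≤ A := (norm_nonneg _).trans (hf.2.1 0)
  -- scaling
  obtain ⟨g, hg⟩ : ∃ g : EE (n + 1) → ℂ, g = fun y => f (lam⁻¹ • y) := ⟨_, rfl⟩
  have hgB : BCd A g := by rw [hg]; exact BCd_comp hf (by positivity)
  have hgM : MorR α lam A g := by rw [hg]; exact MorR_scale hl hA0 hM
  have e1 : ∫⁻ t in Icc (1 : ℝ) 2, ∫⁻ x, ‖MM (mT lam t) f x‖ₑ ^ q =
      ENNReal.ofReal (lam ^ (n + 1))⁻¹ * (ENNReal.ofReal lam⁻¹ *
        ∫⁻ t in Icc lam (2 * lam), ∫⁻ x, ‖MM (mT 1 t) g x‖ₑ ^ q) := by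
    have h1 : ∀ t, ∫⁻ x, ‖MM (mT lam t) f x‖ₑ ^ q =
        ENNReal.ofReal (lam ^ (n + 1))⁻¹ * ∫⁻ x, ‖MM (mT 1 (lam * t)) g x‖ₑ ^ q := by
      intro t
      rw [← lint_smul hl0 (fun x => ‖MM (mT 1 (lam * t)) g x‖ₑ ^ q)]
      refine lintegral_congr fun x => ?_
      rw [MM_scale hl0 t f x, hg]
    simp_rw [h1]
    rw [lintegral_const_mul' _ _ ENNReal.ofReal_ne_top,
      lint_time hl0 (fun t => ∫⁻ x, ‖MM (mT 1 t) g x‖ₑ ^ q)]
  have e2 : ∫⁻ x, ‖g x‖ₑ ^ 2 = ENNReal.ofReal (lam ^ (n + 1)) * ∫⁻ x, ‖f x‖ₑ ^ 2 := by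
    rw [hg, lint_smul (inv_pos.2 hl0) (fun x => ‖f x‖ₑ ^ 2), inv_pow, inv_inv]
  -- the sum over the sectors
  have hgi : Integrable g := BCd_int A g hgB
  have hgj : ∀ j, BCd A (fun y => g ((O j).symm y)) := fun j => BCd_rot hgB _
  have hgjM : ∀ j, MorR α lam A (fun y => g ((O j).symm y)) := fun j => MorR_rot hgM _
  have e3 : ∀ t x, ‖MM (mT 1 t) g x‖ₑ ^ q ≤ (J : ℝ≥0∞) ^ (q - 1) *
      ∑ j, ‖Ua (a j) t (fun y => g ((O j).symm y)) (O j x)‖ₑ ^ q := by
    intro t x
    have h1 : MM (mT 1 t) g x = ∑ j, Ua (a j) t (fun y => g ((O j).symm y)) (O j x) := by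
      have h2 : ∀ j, Ua (a j) t (fun y => g ((O j).symm y)) (O j x) =
          MM (fun ξ => e (t * ‖ξ‖) * a j (O j ξ)) g x := by
        intro j
        unfold Ua
        rw [← MM_rot (O j) (fun ξ => e (t * ‖ξ‖) * a j ξ) g x]
        simp only [LinearIsometryEquiv.norm_map]
      simp_rw [h2]
      unfold MM
      rw [← integral_finsetSum]
      · refine integral_congr_ae (Filter.Eventually.of_forall fun ξ => ?_)
        show e (inner ℝ x ξ) * (mT 1 t ξ * 𝓕 g ξ) =
          ∑ j, e (inner ℝ x ξ) * (e (t * ‖ξ‖) * a j (O j ξ) * 𝓕 g ξ)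
        unfold mT
        rw [div_one, hsum ξ, Finset.mul_sum, Finset.sum_mul, Finset.mul_sum]
      · intro j _
        have hc : Continuous (fun ξ : EE (n + 1) =>
            e (inner ℝ x ξ) * (e (t * ‖ξ‖) * a j (O j ξ) * 𝓕 g ξ)) := by
          have c1 := (ha j).1.continuous
          have c2 : Continuous (𝓕 g) := fourier_cont g hgi
          have c3 := (O j).continuous
          exact (continuous_e.comp (by fun_prop)).mul
            (((continuous_e.comp (by fun_prop)).mul (c1.comp c3)).mul c2)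
        refine hc.integrable_of_hasCompactSupport ?_
        refine HasCompactSupport.of_support_subset_isCompact
          (isCompact_closedBall (0 : EE (n + 1)) 2) ?_
        intro ξ hξ
        rw [mem_closedBall_zero_iff]
        have h3 : a j (O j ξ) ≠ 0 := by
          intro h0
          apply hξ
          simp [h0]
        have h4 := ((ha j).2 _ h3).2.1
        rwa [LinearIsometryEquiv.norm_map] at h4
    rw [h1]
    refine (ENNReal.rpow_le_rpow (enorm_sum_le _ _) hq0).trans ?_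
    have h5 := ENNReal.rpow_sum_le_const_mul_sum_rpow (Finset.univ : Finset (Fin J))
      (fun j => ‖Ua (a j) t (fun y => g ((O j).symm y)) (O j x)‖ₑ) hq1
    simpa using h5
  have hmeas : ∀ j, Measurable fun p : ℝ × EE (n + 1) =>
      ‖Ua (a j) p.1 (fun y => g ((O j).symm y)) (O j p.2)‖ₑ ^ q := by
    intro j
    have hc : Continuous fun p : ℝ × EE (n + 1) =>
        Ua (a j) p.1 (fun y => g ((O j).symm y)) p.2 := by
      unfold Ua MM
      have hfi : Integrable (fun y => g ((O j).symm y)) := BCd_int A _ (hgj j)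
      have hfc : Continuous (𝓕 (fun y => g ((O j).symm y))) := fourier_cont _ hfi
      have hac := (ha j).1.continuous
      apply continuous_of_dominated (bound := fun ξ : EE (n + 1) =>
        ‖a j ξ * 𝓕 (fun y => g ((O j).symm y)) ξ‖)
      · intro p
        exact ((continuous_e.comp (by fun_prop)).mul
          (((continuous_e.comp (by fun_prop)).mul hac).mul hfc)).aestronglyMeasurable
      · intro p
        refine Filter.Eventually.of_forall fun ξ => ?_
        rw [norm_mul, norm_e, one_mul, norm_mul, norm_mul, norm_e, one_mul, norm_mul]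
      · have h1 : Integrable fun ξ : EE (n + 1) =>
            a j ξ * 𝓕 (fun y => g ((O j).symm y)) ξ := by
          apply (hac.mul hfc).integrable_of_hasCompactSupport
          refine HasCompactSupport.of_support_subset_isCompact
            (isCompact_closedBall (0 : EE (n + 1)) 2) ?_
          intro ξ hξ
          rw [mem_closedBall_zero_iff]
          have h3 : a j ξ ≠ 0 := by
            intro h0
            apply hξ
            show a j ξ * 𝓕 (fun y => g ((O j).symm y)) ξ = 0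
            rw [h0, zero_mul]
          exact ((ha j).2 _ h3).2.1
        exact h1.norm
      · refine Filter.Eventually.of_forall fun ξ => ?_
        exact (continuous_e.comp (by fun_prop)).mul
          (((continuous_e.comp (by fun_prop)).mul continuous_const).mul continuous_const)
    have h2 : Continuous fun p : ℝ × EE (n + 1) => (p.1, O j p.2) :=
      continuous_fst.prodMk ((O j).continuous.comp continuous_snd)
    exact (hc.comp h2).measurable.enorm.pow_const q
  have e4 : ∫⁻ t in Icc lam (2 * lam), ∫⁻ x, ‖MM (mT 1 t) g x‖ₑ ^ q ≤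
      (J : ℝ≥0∞) ^ (q - 1) * ∑ j, ∫⁻ t in Icc lam (2 * lam),
        ∫⁻ x, ‖Ua (a j) t (fun y => g ((O j).symm y)) x‖ₑ ^ q :=
    sum_rot O (fun j t x => ‖Ua (a j) t (fun y => g ((O j).symm y)) x‖ₑ ^ q) hmeas _
      (ENNReal.rpow_ne_top_of_nonneg (by linarith) (ENNReal.natCast_ne_top J)) _ _ e3
  have e5 : ∀ j, ∫⁻ t in Icc lam (2 * lam),
      ∫⁻ x, ‖Ua (a j) t (fun y => g ((O j).symm y)) x‖ₑ ^ q ≤
      C j * ENNReal.ofReal (lam ^ ((n : ℝ) * (q / 2 - 1) + η) * A ^ (q - 2)) *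
        ∫⁻ x, ‖g x‖ₑ ^ 2 := by
    intro j
    refine (hC j lam A _ hl (hgj j) (hgjM j)).trans (le_of_eq ?_)
    congr 1
    exact lint_rot (O j).symm (fun x => ‖g x‖ₑ ^ 2)
  rw [e1]
  calc ENNReal.ofReal (lam ^ (n + 1))⁻¹ * (ENNReal.ofReal lam⁻¹ *
        ∫⁻ t in Icc lam (2 * lam), ∫⁻ x, ‖MM (mT 1 t) g x‖ₑ ^ q)
      ≤ ENNReal.ofReal (lam ^ (n + 1))⁻¹ * (ENNReal.ofReal lam⁻¹ *
        ((J : ℝ≥0∞) ^ (q - 1) * ∑ j, (C j * ENNReal.ofReal
          (lam ^ ((n : ℝ) * (q / 2 - 1) + η) * A ^ (q - 2)) * ∫⁻ x, ‖g x‖ₑ ^ 2))) := by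
        gcongr
        exact e4.trans (mul_le_mul' le_rfl (Finset.sum_le_sum fun j _ => e5 j))
    _ = _ := by
        rw [← Finset.sum_mul, ← Finset.sum_mul, e2]
        have h1 : lam ^ ((n : ℝ) * (q / 2 - 1) - 1 + η) =
            lam⁻¹ * lam ^ ((n : ℝ) * (q / 2 - 1) + η) := by
          rw [← Real.rpow_neg_one, ← Real.rpow_add hl0]
          congr 1
          ring
        have h2 : ENNReal.ofReal (lam ^ (n + 1))⁻¹ * ENNReal.ofReal (lam ^ (n + 1)) = 1 := by
          rw [← ENNReal.ofReal_mul (by positivity), inv_mul_cancel₀ (by positivity),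
            ENNReal.ofReal_one]
        have h3 : ENNReal.ofReal (lam ^ ((n : ℝ) * (q / 2 - 1) - 1 + η) * A ^ (q - 2)) =
            ENNReal.ofReal lam⁻¹ * ENNReal.ofReal
              (lam ^ ((n : ℝ) * (q / 2 - 1) + η) * A ^ (q - 2)) := by
          rw [h1, mul_assoc, ENNReal.ofReal_mul (by positivity)]
        have h4 : (((J : ℝ≥0) ^ (q - 1) : ℝ≥0) : ℝ≥0∞) = (J : ℝ≥0∞) ^ (q - 1) := by
          rw [ENNReal.coe_rpow_of_nonneg _ (by linarith)]
          simp
        rw [h3, ENNReal.coe_mul, h4]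
        push_cast
        generalize ENNReal.ofReal lam⁻¹ = L at *
        generalize ENNReal.ofReal (lam ^ (n + 1))⁻¹ = X at *
        generalize ENNReal.ofReal (lam ^ (n + 1)) = X' at *
        generalize ENNReal.ofReal (lam ^ ((n : ℝ) * (q / 2 - 1) + η) * A ^ (q - 2)) = W at *
        generalize ∑ j, (C j : ℝ≥0∞) = S at *
        generalize (J : ℝ≥0∞) ^ (q - 1) = Q at *
        calc X * (L * (Q * (S * W * (X' * ∫⁻ x, ‖f x‖ₑ ^ 2))))
            = (X * X') * (Q * S * (L * W) * ∫⁻ x, ‖f x‖ₑ ^ 2) := by ring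
          _ = _ := by rw [h2, one_mul]

end Pool.Agent.H82.FD
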