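import Pool.Agent.H88.FD.TargetsC
import Pool.Agent.H81.GT.RB2
import Pool.Agent.H19.LS.PLE

/-!
MP_ee74d2_an, theorem FD, final layer, module TRF: truncation in space (after H81/GT/RB2,
`bla_of_res2`).
-/

set_option autoImplicit false

namespace Pool.Agent.H82.FD

open MeasureTheory Set FourierTransform
open scoped ENNReal NNReal SchwartzMap
open Pool.Agent.H83.LS Pool.Agent.H19.LS
open Pool.Agent.H81.GT
open Pool.Agent.H88.FD

/-- module TRF, from PLE -/
theorem trf_of (hPLE : T_PLE) : T_TRF := by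
  intro n α p₀ hn hp₀2 hRES p η hp hη
  obtain ⟨C, hC⟩ := hRES p η hp hη
  refine ⟨C, fun lam A f hl hm hfi hA hM => ?_⟩
  have hl0 : 0 < lam := by linarith
  have hp0 : 0 ≤ p := by linarith
  set fk : ℕ → EE (n + 1) → ℂ := fun k => (Metric.closedBall (0 : EE (n + 1)) k).indicator f
    with hfk
  have hmk : ∀ k, Measurable (fk k) := fun k => hm.indicator measurableSet_closedBall
  have hle : ∀ k x, ‖fk k x‖ ≤ ‖f x‖ := fun k x => norm_indicator_le_norm_self f x
  have hBC : ∀ k, BCd A (fk k) := by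
    intro k
    refine ⟨hmk k, fun x => (hle k x).trans (hA x), k, fun x hx => ?_⟩
    rw [hfk]
    simp only
    rw [indicator_of_notMem]
    rw [mem_closedBall_zero_iff, not_le]
    exact hx
  have hMk : ∀ k, Mor α lam A (fk k) := by
    intro k x ρ h1 h2
    refine (lintegral_mono fun y => ?_).trans (hM x ρ h1 h2)
    rw [← ofReal_norm, ← ofReal_norm]
    exact ENNReal.ofReal_le_ofReal (hle k y)
  have hmeas : ∀ g : EE (n + 1) → ℂ, Integrable g →
      Measurable fun q : ℝ × EE (n + 1) => ‖MM (mT lam q.1) g q.2‖ₑ ^ p := fun g hg =>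
    (MM_cont lam hl0 g hg).measurable.enorm.pow_const p
  have hconv : ∀ q : ℝ × EE (n + 1), Filter.Tendsto
      (fun k => ‖MM (mT lam q.1) (fk k) q.2‖ₑ ^ p) Filter.atTop
      (nhds (‖MM (mT lam q.1) f q.2‖ₑ ^ p)) := by
    intro q
    apply Filter.Tendsto.ennrpow_const
    apply Filter.Tendsto.enorm
    rw [MM_conv lam hl0 hPLE q.1 f hfi hm ⟨A, hA⟩ q.2]
    have e2 : ∀ k, MM (mT lam q.1) (fk k) q.2 = ∫ y, MK (mT lam q.1) (q.2 - y) * fk k y := fun k =>
      MM_conv lam hl0 hPLE q.1 (fk k) (BCd_int A _ (hBC k)) (hmk k) ⟨A, (hBC k).2.1⟩ q.2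
    simp_rw [e2]
    have hKm : AEStronglyMeasurable (fun y : EE (n + 1) => MK (mT lam q.1) (q.2 - y)) :=
      ((MK_cont lam hl0 q.1).comp (continuous_const.sub continuous_id)).aestronglyMeasurable
    apply tendsto_integral_of_dominated_convergence
      (fun y => ‖MK (mT lam q.1) (q.2 - y) * f y‖)
    · intro k
      exact hKm.mul (hmk k).aestronglyMeasurable
    · exact (hfi.bdd_mul (c := ∫ ξ : EE (n + 1), ‖mT lam q.1 ξ‖) hKm
        (Filter.Eventually.of_forall fun y => MK_le lam hl0 q.1 _)).norm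
    · intro k
      refine Filter.Eventually.of_forall fun y => ?_
      rw [norm_mul, norm_mul]
      exact mul_le_mul_of_nonneg_left (hle k y) (norm_nonneg _)
    · refine Filter.Eventually.of_forall fun y => ?_
      apply Filter.Tendsto.const_mul
      obtain ⟨k0, hk0⟩ := exists_nat_ge ‖y‖
      refine tendsto_const_nhds.congr' ?_
      filter_upwards [Filter.eventually_ge_atTop k0] with k hk
      rw [hfk]
      simp only
      rw [indicator_of_mem]
      rw [mem_closedBall_zero_iff]
      exact hk0.trans (by exact_mod_cast hk)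
  rw [st_eq (fun q => ‖MM (mT lam q.1) f q.2‖ₑ ^ p) (hmeas f hfi)]
  calc ∫⁻ q, ‖MM (mT lam q.1) f q.2‖ₑ ^ p ∂(stm (n + 1))
      = ∫⁻ q, Filter.liminf (fun k => ‖MM (mT lam q.1) (fk k) q.2‖ₑ ^ p) Filter.atTop
          ∂(stm (n + 1)) := by
        refine lintegral_congr fun q => ?_
        exact (hconv q).liminf_eq.symm
    _ ≤ Filter.liminf (fun k => ∫⁻ q, ‖MM (mT lam q.1) (fk k) q.2‖ₑ ^ p ∂(stm (n + 1)))
          Filter.atTop :=
        lintegral_liminf_le fun k => hmeas (fk k) (BCd_int A _ (hBC k))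
    _ ≤ _ := by
        apply Filter.liminf_le_of_frequently_le'
        apply Filter.Frequently.of_forall
        intro k
        rw [← st_eq (fun q => ‖MM (mT lam q.1) (fk k) q.2‖ₑ ^ p) (hmeas (fk k) (BCd_int A _ (hBC k)))]
        refine (hC lam A (fk k) hl (hBC k) (hMk k)).trans ?_
        apply mul_le_mul' le_rfl
        refine lintegral_mono fun x => ?_
        have h5 : ‖fk k x‖ₑ ≤ ‖f x‖ₑ := by
          rw [← ofReal_norm, ← ofReal_norm]
          exact ENNReal.ofReal_le_ofReal (hle k x)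
        gcongr

/-- module TRF -/
theorem pf_TRF : T_TRF := trf_of PLE_proof

end Pool.Agent.H82.FD
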