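import Pool.Agent.H88.FD.TargetsC

/-!
MP_ee74d2_an, theorem FD, final layer, module WSC: weights at neighbouring scales.
-/

set_option autoImplicit false

namespace Pool.Agent.H82.FD

open MeasureTheory Set
open scoped ENNReal NNReal
open Pool.Agent.H83.LS
open Pool.Agent.H88.FD

/-- module WSC -/
theorem pf_WSC : T_WSC := by
  intro n α hα hαn
  set V : ℝ := (volume (Metric.closedBall (0 : EE (n + 1)) 1)).toReal with hV
  have hV0 : 0 ≤ V := ENNReal.toReal_nonneg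
  have hVf : volume (Metric.closedBall (0 : EE (n + 1)) 1) ≠ ⊤ := measure_closedBall_lt_top.ne
  have hd : 0 ≤ (n : ℝ) + 1 - α := by linarith
  set C : ℝ := (4 : ℝ) ^ ((n : ℝ) + 1 - α) * (1 + V) with hC
  have h4 : (1 : ℝ) ≤ (4 : ℝ) ^ ((n : ℝ) + 1 - α) := Real.one_le_rpow (by norm_num) hd
  have hC1 : 1 ≤ C := by
    rw [hC]
    nlinarith
  have hC0 : 0 < C := by linarith
  refine ⟨C, hC1, fun lam mu v hl hm hml hv => ?_⟩
  obtain ⟨hv1, hv2, hv3⟩ := hv
  have hl0 : 0 < lam := by linarith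
  have hm0 : 0 < mu := by linarith
  have hCi : C⁻¹ ≤ 1 := inv_le_one_of_one_le₀ hC1
  refine ⟨hv1.const_mul _, fun x => ⟨mul_pos (inv_pos.2 hC0) (hv2 x).1, ?_⟩, fun x ρ h1 h2 => ?_⟩
  · calc C⁻¹ * v x ≤ 1 * 1 := mul_le_mul hCi (hv2 x).2 (hv2 x).1.le (by norm_num)
      _ = 1 := by norm_num
  have hmi : 0 < mu⁻¹ := inv_pos.2 hm0
  have hρ : 0 < ρ := lt_of_lt_of_le hmi h1
  have e0 : ∫⁻ y in Metric.closedBall x ρ, ENNReal.ofReal (C⁻¹ * v y) =
      ENNReal.ofReal C⁻¹ * ∫⁻ y in Metric.closedBall x ρ, ENNReal.ofReal (v y) := by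
    rw [← lintegral_const_mul' _ _ ENNReal.ofReal_ne_top]
    refine lintegral_congr fun y => ?_
    rw [ENNReal.ofReal_mul (by positivity)]
  -- powers of the scales
  have hpow : lam ^ (α - ((n : ℝ) + 1)) ≤ (4 : ℝ) ^ ((n : ℝ) + 1 - α) *
      mu ^ (α - ((n : ℝ) + 1)) := by
    have e1 : mu ^ ((n : ℝ) + 1 - α) ≤ (4 : ℝ) ^ ((n : ℝ) + 1 - α) * lam ^ ((n : ℝ) + 1 - α) := by
      rw [← Real.mul_rpow (by norm_num) hl0.le]
      exact Real.rpow_le_rpow hm0.le hml hd
    have e2 : lam ^ (α - ((n : ℝ) + 1)) = (lam ^ ((n : ℝ) + 1 - α))⁻¹ := by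
      rw [← Real.rpow_neg hl0.le]
      congr 1
      ring
    have e3 : mu ^ (α - ((n : ℝ) + 1)) = (mu ^ ((n : ℝ) + 1 - α))⁻¹ := by
      rw [← Real.rpow_neg hm0.le]
      congr 1
      ring
    rw [e2, e3, ← div_eq_mul_inv, le_div_iff₀ (by positivity), inv_mul_le_iff₀ (by positivity)]
    linarith
  have key : ∫⁻ y in Metric.closedBall x ρ, ENNReal.ofReal (v y) ≤
      ENNReal.ofReal (C * (mu ^ (α - ((n : ℝ) + 1)) * ρ ^ α)) := by
    rcases le_or_gt lam⁻¹ ρ with h | h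
    · refine (hv3 x ρ h h2).trans (ENNReal.ofReal_le_ofReal ?_)
      have h5 : (4 : ℝ) ^ ((n : ℝ) + 1 - α) ≤ C := by
        rw [hC]
        nlinarith
      calc lam ^ (α - ((n : ℝ) + 1)) * ρ ^ α
          ≤ ((4 : ℝ) ^ ((n : ℝ) + 1 - α) * mu ^ (α - ((n : ℝ) + 1))) * ρ ^ α := by gcongr
        _ ≤ (C * mu ^ (α - ((n : ℝ) + 1))) * ρ ^ α := by gcongr
        _ = _ := by ring
    · calc ∫⁻ y in Metric.closedBall x ρ, ENNReal.ofReal (v y)
          ≤ ∫⁻ y in Metric.closedBall x ρ, 1 := by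
            refine lintegral_mono fun y => ?_
            rw [← ENNReal.ofReal_one]
            exact ENNReal.ofReal_le_ofReal (hv2 y).2
        _ = volume (Metric.closedBall x ρ) := by simp
        _ = ENNReal.ofReal (ρ ^ (n + 1) * V) := by
            rw [Measure.addHaar_closedBall' _ _ hρ.le, finrank_euclideanSpace, Fintype.card_fin,
              ENNReal.ofReal_mul (by positivity), hV, ENNReal.ofReal_toReal hVf]
        _ ≤ _ := by
            refine ENNReal.ofReal_le_ofReal ?_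
            have e1 : ρ ^ (n + 1) = ρ ^ ((n : ℝ) + 1 - α) * ρ ^ α := by
              rw [← Real.rpow_add hρ, ← Real.rpow_natCast]
              congr 1
              push_cast
              ring
            have e2 : ρ ^ ((n : ℝ) + 1 - α) ≤ lam ^ (α - ((n : ℝ) + 1)) := by
              calc ρ ^ ((n : ℝ) + 1 - α) ≤ (lam⁻¹) ^ ((n : ℝ) + 1 - α) :=
                    Real.rpow_le_rpow hρ.le h.le hd
                _ = _ := by
                    rw [Real.inv_rpow hl0.le, ← Real.rpow_neg hl0.le]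
                    congr 1
                    ring
            have e3 : (4 : ℝ) ^ ((n : ℝ) + 1 - α) * V ≤ C := by
              rw [hC]
              nlinarith
            calc ρ ^ (n + 1) * V = ρ ^ ((n : ℝ) + 1 - α) * ρ ^ α * V := by rw [e1]
              _ ≤ ((4 : ℝ) ^ ((n : ℝ) + 1 - α) * mu ^ (α - ((n : ℝ) + 1))) * ρ ^ α * V := by
                  gcongr
                  exact e2.trans hpow
              _ = ((4 : ℝ) ^ ((n : ℝ) + 1 - α) * V) * (mu ^ (α - ((n : ℝ) + 1)) * ρ ^ α) := by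
                  ring
              _ ≤ C * (mu ^ (α - ((n : ℝ) + 1)) * ρ ^ α) := by gcongr
  rw [e0]
  calc ENNReal.ofReal C⁻¹ * ∫⁻ y in Metric.closedBall x ρ, ENNReal.ofReal (v y)
      ≤ ENNReal.ofReal C⁻¹ * ENNReal.ofReal (C * (mu ^ (α - ((n : ℝ) + 1)) * ρ ^ α)) := by gcongr
    _ = ENNReal.ofReal (mu ^ (α - ((n : ℝ) + 1)) * ρ ^ α) := by
        rw [← ENNReal.ofReal_mul (by positivity), ← mul_assoc, inv_mul_cancel₀ hC0.ne', one_mul]

end Pool.Agent.H82.FD
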